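import Pool.Agent.helper10.OM.SpecG

set_option autoImplicit false

namespace Pool.Agent.OM

open Finset Real

theorem GPH_sep (R Y Q : ℕ) (h : Y + 2 * R ≤ Q) : ∀ x ∈ XX R Y, ∀ x' ∈ XX R Y, (Q : ℤ) ∣ x - x' → x = x' := by
  intro x hx x' hx' hd
  unfold XX at hx hx'
  rw [mem_Ico] at hx hx'
  have h1 : (Y : ℤ) + 2 * R ≤ Q := by exact_mod_cast h
  have h2 : |x - x'| < Q := by
    rw [abs_lt]
    constructor <;> linarith [hx.1, hx.2, hx'.1, hx'.2]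
  have h3 := Int.eq_zero_of_abs_lt_dvd hd h2
  linarith

theorem GPH_sq (R Y : ℕ) (f : ℤ → ℝ) (h1 : ∀ x, |f x| ≤ 1) (h2 : ∀ x, x ∉ XX 0 Y → f x = 0) :
    ∑ x ∈ XX R Y, ‖((f x : ℝ) : ℂ)‖ ^ 2 ≤ Y := by
  have h3 : ∑ x ∈ XX R Y, ‖((f x : ℝ) : ℂ)‖ ^ 2 = ∑ x ∈ XX 0 Y, ‖((f x : ℝ) : ℂ)‖ ^ 2 := by
    symm
    apply sum_subset
    · intro x hx
      unfold XX at hx ⊢
      rw [mem_Ico] at hx ⊢
      constructor
      · have := hx.1
        push_cast at this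
        linarith [Int.natCast_nonneg R]
      · have := hx.2
        push_cast at this
        linarith [Int.natCast_nonneg R]
    · intro x _ hx
      rw [h2 x hx]
      simp
  rw [h3]
  have h4 : ∀ x ∈ XX 0 Y, ‖((f x : ℝ) : ℂ)‖ ^ 2 ≤ (1 : ℝ) := by
    intro x _
    rw [Complex.norm_real, Real.norm_eq_abs]
    exact pow_le_one₀ (abs_nonneg _) (h1 x)
  refine (sum_le_card_nsmul _ _ _ h4).trans ?_
  have h5 : #(XX 0 Y) = Y := by
    unfold XX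
    rw [Int.card_Ico]
    simp
  rw [h5]
  simp

theorem GPH (h1 : PA1_stmt) : GPH_stmt := by
  intro F R Y Q hQ hYQ φ hφ h2
  unfold PF
  rw [sum_comm]
  have h3 : ∀ i ∈ F, ∑ k ∈ range Q, ‖ft (XX R Y) (φ i) ((k : ℝ) / Q)‖ ^ 2 ≤ (Q : ℝ) * Y := by
    intro i _
    have h4 := h1 Q hQ (XX R Y) (GPH_sep R Y Q hYQ) (fun x => ((φ i x : ℝ) : ℂ))
    unfold ft
    rw [h4]
    exact mul_le_mul_of_nonneg_left (GPH_sq R Y (φ i) (hφ i) (h2 i)) (by positivity)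
  refine (sum_le_sum h3).trans ?_
  rw [sum_const, nsmul_eq_mul]
  apply le_of_eq
  ring

end Pool.Agent.OM
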